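import Pool.Agent.CY.S8.Stub

/-!
CY-S8.Fin1. Consequences of compactness: boundedness, the measures.

`vol g`, `bvol g` are finite (`isSob`), `bvol g` is carried by the (closed) boundary (`IsBVol`, `bvol` has the
property by `bvol_spec`).
-/

set_option autoImplicit false
set_option linter.unusedSectionVars false

open scoped ContDiff Manifold
open MeasureTheory Set Filter Topology

namespace Pool.Agent.CY.S8

open Pool.Agent.CY

variable {n : ℕ} {X : Type} [TopologicalSpace X] [ChartedSpace (EuclideanHalfSpace (n + 1)) X]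
  [IsManifold (𝓡∂ (n + 1)) ∞ X] [CompactSpace X] [T2Space X] [ConnectedSpace X]
  [MeasurableSpace X] [BorelSpace X]

theorem boundary_closed : IsClosed ((𝓡∂ (n + 1)).boundary X) := isClosed_boundary

/-- The mean curvature, extended by zero to the interior. -/
noncomputable def Hm (g : Metric n X) : X → ℝ := ((𝓡∂ (n + 1)).boundary X).indicator (meanX g)

theorem Hm_measurable (g : Metric n X) : Measurable (Hm g) := by
  have hm : MeasurableSet ((𝓡∂ (n + 1)).boundary X) := boundary_closed.measurableSet
  have h1 : Measurable (fun x : (𝓡∂ (n + 1)).boundary X => meanX g x) :=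
    (continuousOn_iff_continuous_domRestrict.1 (meanX_cont g)).measurable
  refine measurable_of_measurable_union_cover ((𝓡∂ (n + 1)).boundary X) ((𝓡∂ (n + 1)).boundary X)ᶜ
    hm hm.compl (by simp) ?_ ?_
  · have h2 : (fun x : (𝓡∂ (n + 1)).boundary X => Hm g x) =
        fun x : (𝓡∂ (n + 1)).boundary X => meanX g x := by
      funext x
      exact indicator_of_mem x.2 _
    rw [h2]; exact h1
  · have h2 : (fun x : (((𝓡∂ (n + 1)).boundary X)ᶜ : Set X) => Hm g x) = fun x => 0 := by
      funext x
      exact indicator_of_notMem x.2 _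
    rw [h2]; exact measurable_const

theorem Hm_ae (g : Metric n X) : Hm g =ᵐ[bvol g] meanX g := by
  have h := (bvol_spec g).1
  have h1 : ∀ᵐ x ∂(bvol g), x ∈ (𝓡∂ (n + 1)).boundary X := by
    rw [ae_iff]; exact h
  filter_upwards [h1] with x hx
  unfold Hm
  simp [hx]

theorem bounded_RH (g : Metric n X) : ∃ M : ℝ, (∀ x, |scalX g x| ≤ M) ∧ ∀ x, |Hm g x| ≤ M := by
  obtain ⟨M1, h1⟩ := isCompact_univ.exists_bound_of_continuousOn (scalX_cont g).continuousOn
  obtain ⟨M2, h2⟩ := (boundary_closed (n := n) (X := X)).isCompact.exists_bound_of_continuousOn (meanX_cont g)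
  refine ⟨max M1 (max M2 0), fun x => ?_, fun x => ?_⟩
  · exact le_trans (h1 x (mem_univ x)) (le_max_left _ _)
  · unfold Hm
    by_cases hx : x ∈ (𝓡∂ (n + 1)).boundary X
    · rw [indicator_of_mem hx]
      exact le_trans (h2 x hx) (le_trans (le_max_left _ _) (le_max_right _ _))
    · rw [indicator_of_notMem hx]
      simp

/-- If `0 < YB g` then the boundary is nonempty (otherwise `bvol h = 0` for all `h` and `YB g = 0`). -/
theorem boundary_nonempty (g : Metric n X) (hY : 0 < YB g) : ((𝓡∂ (n + 1)).boundary X).Nonempty := by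
  by_contra h
  rw [not_nonempty_iff_eq_empty] at h
  have h1 : ∀ h' : Metric n X, bvol h' = 0 := by
    intro h'
    have := (bvol_spec h').1
    rw [h, compl_empty] at this
    exact Measure.measure_univ_eq_zero.1 this
  have h2 : YB g ≤ 0 := by
    unfold YB
    refine Real.sInf_nonpos ?_
    rintro y ⟨u, h', hu, hc, rfl⟩
    rw [h1 h']
    simp
  linarith

/-- Bounded continuous functions on the boundary: members of all `L^r(bvol g)`. -/
theorem memLp_bvol (hn : 2 ≤ n) (g : Metric n X) (φ : X → ℝ)
    (hφ : ContinuousOn φ ((𝓡∂ (n + 1)).boundary X)) (r : ENNReal) : MemLp φ r (bvol g) := by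
  obtain ⟨f⟩ := exists_frame g
  have hS := isSob hn g f
  have : IsFiniteMeasure (bvol g) := ⟨hS.fin_σ⟩
  have hm : MeasurableSet ((𝓡∂ (n + 1)).boundary X) := boundary_closed.measurableSet
  obtain ⟨M, hM⟩ := (boundary_closed (n := n) (X := X)).isCompact.exists_bound_of_continuousOn hφ
  have h1 : ∀ᵐ x ∂(bvol g), x ∈ (𝓡∂ (n + 1)).boundary X := by
    rw [ae_iff]; exact (bvol_spec g).1
  have h2 : (bvol g).restrict ((𝓡∂ (n + 1)).boundary X) = bvol g :=
    Measure.restrict_eq_self_of_ae_mem h1
  have h3 : AEStronglyMeasurable φ (bvol g) := by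
    rw [← h2]
    exact hφ.aestronglyMeasurable hm
  refine MemLp.of_bound h3 M ?_
  filter_upwards [h1] with x hx
  exact hM x hx

theorem memLp_vol (hn : 2 ≤ n) (g : Metric n X) (φ : X → ℝ) (hφ : Continuous φ) (r : ENNReal) :
    MemLp φ r (vol g) := by
  obtain ⟨f⟩ := exists_frame g
  have hS := isSob hn g f
  have : IsFiniteMeasure (vol g) := ⟨hS.fin_μ⟩
  obtain ⟨M, hM⟩ := isCompact_univ.exists_bound_of_continuousOn hφ.continuousOn
  exact MemLp.of_bound hφ.aestronglyMeasurable M (ae_of_all _ fun x => hM x (mem_univ x))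

end Pool.Agent.CY.S8
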