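import Pool.Agent.CY.S8.Lower

/-!
CY-S8-Final. Assembly.

`≥`: `lower_Y1` and `(Y/Y_n)^{n/(n+1)} ≥ Y/Y_n` as `0 < Y/Y_n ≤ 1` (`aubin`).
Attained: `example_exists`: `Yn ≤ YB g`, so `0 < YB g`, `YB g ≤ Yn` by `aubin`, so `YB g = Yn`, and
`An = An (YB/Yn)^{..} ≤ Y1 g ≤ An`.
-/

set_option autoImplicit false

open scoped ContDiff Manifold
open MeasureTheory Set Filter Topology

namespace Pool.Agent.CY

open Pool.Agent.CY.S8

/-- The ratios `Y_1(X, ∂X, [g]) / Y(∂X, [g_o])` of the compact connected conformally compact Einstein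
manifolds of dimension `n + 1` with `Y(∂X, [g_o]) > 0`. -/
def Ratios (n : ℕ) : Set ℝ :=
  {r : ℝ | ∃ (X : Type) (_ : TopologicalSpace X) (_ : ChartedSpace (EuclideanHalfSpace (n + 1)) X)
      (_ : IsManifold (𝓡∂ (n + 1)) ∞ X) (_ : CompactSpace X) (_ : T2Space X) (_ : ConnectedSpace X)
      (_ : MeasurableSpace X) (_ : BorelSpace X) (g : Metric n X) (ρ : X → ℝ),
      IsCCE g ρ ∧ 0 < YB g ∧ r = Y1 g / YB g}

theorem S8.om_pos' (k : ℕ) : 0 < om k := by
  unfold om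
  have h : 0 < ((k : ℝ) + 1) / 2 := by positivity
  have := Real.Gamma_pos_of_pos h
  positivity

theorem S8.An_pos (n : ℕ) (hn : 3 ≤ n) : 0 < An n := by
  unfold An
  have := S8.om_pos' (n + 1)
  have : (0 : ℝ) < n := by positivity
  positivity

theorem S8.Yn_pos (n : ℕ) (hn : 3 ≤ n) : 0 < Yn n := by
  unfold Yn
  have := S8.om_pos' n
  have h3 : (3 : ℝ) ≤ n := by exact_mod_cast hn
  have : (0 : ℝ) < (n : ℝ) - 1 := by linarith
  positivity

theorem isLeast_ratios (n : ℕ) (hn : 3 ≤ n) : IsLeast (Ratios n) (An n / Yn n) := by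
  have hA := S8.An_pos n hn
  have hYn := S8.Yn_pos n hn
  refine ⟨?_, ?_⟩
  · obtain ⟨X, i1, i2, i3, i4, i5, i6, i7, i8, g, ρ, hE, h1, h2⟩ := example_exists n hn
    have hY : 0 < YB g := lt_of_lt_of_le hYn h1
    have h3 : YB g = Yn n := le_antisymm (aubin hn g (boundary_nonempty g hY) hY) h1
    have h4 := lower_Y1 hn g ρ hE hY
    rw [h3, div_self hYn.ne', Real.one_rpow, mul_one] at h4
    have h5 : Y1 g = An n := le_antisymm h2 h4
    exact ⟨X, i1, i2, i3, i4, i5, i6, i7, i8, g, ρ, hE, hY, by rw [h3, h5]⟩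
  · rintro r ⟨X, i1, i2, i3, i4, i5, i6, i7, i8, g, ρ, hE, hY, rfl⟩
    have h1 := lower_Y1 hn g ρ hE hY
    have h2 : YB g ≤ Yn n := aubin hn g (boundary_nonempty g hY) hY
    have h3 : 0 < YB g / Yn n := div_pos hY hYn
    have h4 : YB g / Yn n ≤ 1 := (div_le_one hYn).2 h2
    have h5 : YB g / Yn n ≤ (YB g / Yn n) ^ ((n : ℝ) / ((n : ℝ) + 1)) := by
      have := Real.rpow_le_rpow_of_exponent_ge h3 h4 (y := 1) (z := (n : ℝ) / ((n : ℝ) + 1)) (by
        rw [div_le_one (by positivity)]; linarith)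
      rwa [Real.rpow_one] at this
    rw [le_div_iff₀ hY]
    calc An n / Yn n * YB g = An n * (YB g / Yn n) := by ring
      _ ≤ An n * (YB g / Yn n) ^ ((n : ℝ) / ((n : ℝ) + 1)) := mul_le_mul_of_nonneg_left h5 hA.le
      _ ≤ Y1 g := h1

/-- The full statement: the sharp constant, the stronger inequality, and the equality case of the Yamabe
constants. -/
theorem sharp_constant (n : ℕ) (hn : 3 ≤ n) :
    IsLeast (Ratios n) (An n / Yn n) ∧
    ∀ (X : Type) [TopologicalSpace X] [ChartedSpace (EuclideanHalfSpace (n + 1)) X]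
      [IsManifold (𝓡∂ (n + 1)) ∞ X] [CompactSpace X] [T2Space X] [ConnectedSpace X]
      [MeasurableSpace X] [BorelSpace X] (g : Metric n X) (ρ : X → ℝ), IsCCE g ρ → 0 < YB g →
      YB g ≤ Yn n ∧
      An n * (YB g / Yn n) ^ ((n : ℝ) / ((n : ℝ) + 1)) ≤ Y1 g ∧
      (Y1 g / YB g = An n / Yn n → YB g = Yn n ∧ Y1 g = An n) := by
  refine ⟨isLeast_ratios n hn, ?_⟩
  intro X _ _ _ _ _ _ _ _ g ρ hE hY
  have hA := S8.An_pos n hn
  have hYn := S8.Yn_pos n hn
  have h1 := lower_Y1 hn g ρ hE hY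
  have h2 : YB g ≤ Yn n := aubin hn g (boundary_nonempty g hY) hY
  refine ⟨h2, h1, fun heq => ?_⟩
  have h3 : 0 < YB g / Yn n := div_pos hY hYn
  have hy : YB g = Yn n := by
    by_contra hne
    have h4 : YB g / Yn n < 1 := (div_lt_one hYn).2 (lt_of_le_of_ne h2 hne)
    have h5 : YB g / Yn n < (YB g / Yn n) ^ ((n : ℝ) / ((n : ℝ) + 1)) := by
      have := Real.rpow_lt_rpow_of_exponent_gt h3 h4 (z := (n : ℝ) / ((n : ℝ) + 1)) (y := 1) (by
        rw [div_lt_one (by positivity)]; linarith)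
      rwa [Real.rpow_one] at this
    have h6 : Y1 g = An n * (YB g / Yn n) := by
      rw [div_eq_div_iff hY.ne' hYn.ne'] at heq
      field_simp
      linarith
    have h7 := mul_lt_mul_of_pos_left h5 hA
    linarith
  refine ⟨hy, ?_⟩
  rw [hy] at heq
  exact (div_left_inj' hYn.ne').1 heq

end Pool.Agent.CY
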