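import Pool.Agent.CY.S8.Reg
import Pool.Agent.CY.S2.Core

/-!
CY-S8-Lower. The lower bound for `Y1`.

`core` with `μ = vol g`, `σ = bvol g`, `A = C1 n X`, `D = f.D` (`exists_frame`), `R = scalX g`, `H = Hm g`,
`Y = YB g` (`aubin`, `boundary_nonempty`, `bvol_ne`).  For a member `y` of the set defining `Y1 g`, given by
`u ∈ PosSmooth`, `h` with `IsConf u g h`, put `v = u^{(n-1)/2} ∈ PosSmooth` (`v ∈ C1`), so `v^{2/(n-1)} = u`;
`energy_formula`: `energy h = EE .. v (f.D v) v` (replace `meanX` by `Hm`) and `vol h univ = ∫ |v|^p`, so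
`P(v) = (vol h univ)^{2/p}`, `2/p = (n-1)/(n+1)`; divide (the volume is positive).  The set is nonempty
(`u = 1`, `h = g`), so `le_csInf`.
-/

set_option autoImplicit false

open scoped ContDiff Manifold
open MeasureTheory Set Filter Topology

namespace Pool.Agent.CY.S8

open Pool.Agent.CY

variable {n : ℕ} {X : Type} [TopologicalSpace X] [ChartedSpace (EuclideanHalfSpace (n + 1)) X]
  [IsManifold (𝓡∂ (n + 1)) ∞ X] [CompactSpace X] [T2Space X] [ConnectedSpace X]
  [MeasurableSpace X] [BorelSpace X]

omit [IsManifold (𝓡∂ (n + 1)) ∞ X] [CompactSpace X] [T2Space X] [ConnectedSpace X]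
  [MeasurableSpace X] [BorelSpace X] in
theorem posSmooth_rpow (u : X → ℝ) (hu : u ∈ PosSmooth n X) (r : ℝ) :
    (fun p => u p ^ r) ∈ PosSmooth n X := by
  refine ⟨fun p => ?_, fun p => Real.rpow_pos_of_pos (hu.2 p) r⟩
  have h1 : ContDiffAt ℝ ∞ (fun x : ℝ => x ^ r) (u p) :=
    Real.contDiffAt_rpow_const_of_ne (hu.2 p).ne'
  exact h1.contMDiffAt.comp p (hu.1 p)

theorem lower_Y1 (hn : 3 ≤ n) (g : Metric n X) (ρ : X → ℝ) (hE : IsCCE g ρ) (hY : 0 < YB g) :
    An n * (YB g / Yn n) ^ ((n : ℝ) / ((n : ℝ) + 1)) ≤ Y1 g := by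
  have hn3 : (3 : ℝ) ≤ n := by exact_mod_cast hn
  have hn1 : (0 : ℝ) < (n : ℝ) - 1 := by linarith
  obtain ⟨f⟩ := exists_frame g
  have hbd := boundary_nonempty g hY
  have hσ := bvol_ne g hbd
  have hS := isSob (by omega) g f
  have hAI := hasAI (by omega) g f
  obtain ⟨M, hM1, hM2⟩ := bounded_RH g
  have hμ : (vol g).real univ ≠ 0 := by
    intro h0
    obtain ⟨C, hC⟩ := hS.tr 1 one_pos
    have h1 := hC _ (hS.const 1)
    have h2 : vol g = 0 := by
      rw [← Measure.measure_univ_eq_zero]
      rcases (ENNReal.toReal_eq_zero_iff _).1 h0 with h | h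
      · exact h
      · exact absurd h hS.fin_μ.ne
    rw [h2] at h1
    simp only [DD, integral_zero_measure, one_pow, integral_const, smul_eq_mul, mul_one, mul_zero] at h1
    have h4 : (0 : Measure X).real univ = 0 := by simp [Measure.real]
    rw [h4] at h1
    have h3 : 0 < (bvol g).real univ := ENNReal.toReal_pos hσ hS.fin_σ.ne
    linarith
  have hcore := core n hn (vol g) (bvol g) (C1 n X) f.D hS hAI hσ (scalX g) (Hm g)
    (scalX_cont g).measurable (Hm_measurable g) M hM1 hM2 (YB g) hY (aubin hn g hbd hY)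
    (regIneq hn g f ρ hE hY)
  unfold Y1
  refine le_csInf ?_ ?_
  · refine ⟨_, fun _ => 1, g, ⟨contMDiff_const, fun _ => one_pos⟩, ?_, rfl⟩
    intro e he y hy
    simp
  · rintro y ⟨u, h, hu, hc, rfl⟩
    have hv : (fun p => u p ^ (((n : ℝ) - 1) / 2)) ∈ PosSmooth n X := posSmooth_rpow u hu _
    have hvc : IsConf (fun p => (fun p => u p ^ (((n : ℝ) - 1) / 2)) p ^ (2 / ((n : ℝ) - 1))) g h := by
      have : (fun p => (fun p => u p ^ (((n : ℝ) - 1) / 2)) p ^ (2 / ((n : ℝ) - 1))) = u := by
        funext p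
        simp only
        rw [← Real.rpow_mul (hu.2 p).le]
        have : ((n : ℝ) - 1) / 2 * (2 / ((n : ℝ) - 1)) = 1 := by field_simp
        rw [this, Real.rpow_one]
      rw [this]; exact hc
    set v : X → ℝ := fun p => u p ^ (((n : ℝ) - 1) / 2) with hvdef
    obtain ⟨e1, e2, -⟩ := energy_formula hn g h f v hv hvc
    have hvA : v ∈ C1 n X := hv.1.of_le (by simp)
    have h1 := hcore v hvA
    have h2 : EE n (vol g) (bvol g) (scalX g) (Hm g) v (f.D v) v = energy h := by
      rw [e1]
      unfold EE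
      congr 2
      refine integral_congr_ae ?_
      filter_upwards [Hm_ae g] with x hx
      rw [hx]
    rw [h2] at h1
    have h3 : PP n (vol g) v = (vol h univ).toReal ^ (((n : ℝ) - 1) / ((n : ℝ) + 1)) := by
      unfold PP
      rw [e2]
      congr 1
      unfold pp
      field_simp
    have h4 : 0 < PP n (vol g) v := by
      unfold PP
      refine Real.rpow_pos_of_pos ?_ _
      have hvc := hS.cont v hvA
      have hcont : Continuous fun x => |v x| ^ pp n := by
        refine Continuous.rpow_const hvc.abs ?_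
        intro x
        right
        unfold pp
        positivity
      have hpos : ∀ x, 0 < |v x| ^ pp n := fun x => Real.rpow_pos_of_pos (abs_pos.2 (hv.2 x).ne') _
      have hfin : IsFiniteMeasure (vol g) := ⟨hS.fin_μ⟩
      have hint : Integrable (fun x => |v x| ^ pp n) (vol g) :=
        hcont.integrable_of_hasCompactSupport (HasCompactSupport.of_compactSpace _)
      rw [integral_pos_iff_support_of_nonneg (fun x => (hpos x).le) hint]
      have hsup : Function.support (fun x => |v x| ^ pp n) = univ := by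
        ext x; simp only [Function.mem_support, mem_univ, iff_true]; exact (hpos x).ne'
      rw [hsup]
      rw [pos_iff_ne_zero]
      intro h0
      exact hμ (by simp [Measure.real, h0])
    rw [← h3, le_div_iff₀ h4]
    exact h1

end Pool.Agent.CY.S8
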