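import Pool.Agent.CY.S8.Fin1

/-!
CY-S8-Reg. `smooth_approx` + `key_ineq` imply `RegIneq`.

Given `lam, kap, (w, ζ, τ), c, C`, take `u_k`, `K` from `smooth_approx` and `K'` from `key_ineq` (for `c, C`),
write `r_k = Lop g u_k - lam u_k^{p-1} → 0` in `L²(vol)`, `s_k = Bop g u_k - kap u_k^{q-1} → 0` in `L²(bvol)`.
(1) `∫ u_k^q dσ → ∫ |τ|^q dσ`: `t ↦ t^q` is Lipschitz on `[c, C]`, `∫ |u_k - τ| ≤ σ(X)^{1/2} ‖u_k - τ‖_2`.
(2) `∫ u_k^{-2/(n-1)} (Bop)² = ∫ u_k^{-2/(n-1)} (kap u_k^{q-1} + s_k)²`; `2(q - 1) - 2/(n-1) = q`, so it is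
`kap² ∫ u_k^q + o(1)` (the weight is bounded on `[c, C]`).
(3) `∫ |r_k| (1 + gipX + |Lop|) ≤ ‖r_k‖_2 (‖1‖_2 + K^{1/2} + ‖Lop g u_k‖_2)` and
`‖Lop g u_k‖_2 ≤ ‖r_k‖_2 + |lam| C^{p-1} vol(X)^{1/2}`.
All functions are continuous (`Lop_cont`, `gipX_cont`, `Bop_cont`), so integrability is automatic
(`memLp_vol`, `memLp_bvol`).  In the weak equation `meanX` may be replaced by `Hm` (`Hm_ae`).
-/

set_option autoImplicit false
set_option linter.unusedSectionVars false

open scoped ContDiff Manifold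
open MeasureTheory Set Filter Topology

namespace Pool.Agent.CY.S8

open Pool.Agent.CY

variable {n : ℕ} {X : Type} [TopologicalSpace X] [ChartedSpace (EuclideanHalfSpace (n + 1)) X]
  [IsManifold (𝓡∂ (n + 1)) ∞ X] [CompactSpace X] [T2Space X] [ConnectedSpace X]
  [MeasurableSpace X] [BorelSpace X]

theorem cs_int {ν : Measure X} (f g : X → ℝ) (hf : MemLp f 2 ν) (hg : MemLp g 2 ν) :
    ∫ x, |f x| * |g x| ∂ν ≤ Real.sqrt (∫ x, f x ^ 2 ∂ν) * Real.sqrt (∫ x, g x ^ 2 ∂ν) := by
  have h := integral_mul_norm_le_Lp_mul_Lq (μ := ν) (f := f) (g := g) (p := 2) (q := 2)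
    Real.HolderConjugate.two_two (by simpa using hf) (by simpa using hg)
  simp only [Real.norm_eq_abs] at h
  refine h.trans (le_of_eq ?_)
  rw [Real.sqrt_eq_rpow, Real.sqrt_eq_rpow]
  congr 2
  · refine integral_congr_ae (ae_of_all _ fun x => ?_)
    simp
  · refine integral_congr_ae (ae_of_all _ fun x => ?_)
    simp

theorem lip_rpow (c C r : ℝ) (hc : 0 < c) :
    ∃ L : ℝ, 0 ≤ L ∧ ∀ a ∈ Icc c C, ∀ b ∈ Icc c C, |a ^ r - b ^ r| ≤ L * |a - b| := by
  have hcont : ContinuousOn (fun x : ℝ => r * x ^ (r - 1)) (Icc c C) := by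
    refine ContinuousOn.mul continuousOn_const ?_
    refine ContinuousOn.rpow_const continuousOn_id ?_
    intro x hx
    left
    exact (lt_of_lt_of_le hc hx.1).ne'
  obtain ⟨L, hL⟩ := isCompact_Icc.exists_bound_of_continuousOn hcont
  refine ⟨max L 0, le_max_right _ _, fun a ha b hb => ?_⟩
  have h1 := Convex.norm_image_sub_le_of_norm_hasDerivWithin_le (𝕜 := ℝ) (f := fun x : ℝ => x ^ r)
    (f' := fun x : ℝ => r * x ^ (r - 1)) (C := L) (s := Icc c C)
    (fun x hx => (Real.hasDerivAt_rpow_const (Or.inl (lt_of_lt_of_le hc hx.1).ne')).hasDerivWithinAt)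
    hL (convex_Icc c C) hb ha
  calc |a ^ r - b ^ r| ≤ L * |a - b| := h1
    _ ≤ max L 0 * |a - b| := mul_le_mul_of_nonneg_right (le_max_left _ _) (abs_nonneg _)

theorem bd_rpow (c C r : ℝ) (hc : 0 < c) :
    ∃ M : ℝ, 0 ≤ M ∧ ∀ a ∈ Icc c C, a ^ r ≤ M := by
  have hcont : ContinuousOn (fun x : ℝ => x ^ r) (Icc c C) := by
    refine ContinuousOn.rpow_const continuousOn_id ?_
    intro x hx
    left
    exact (lt_of_lt_of_le hc hx.1).ne'
  obtain ⟨L, hL⟩ := isCompact_Icc.exists_bound_of_continuousOn hcont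
  refine ⟨max L 0, le_max_right _ _, fun a ha => ?_⟩
  exact le_trans (le_trans (le_abs_self _) (hL a ha)) (le_max_left _ _)

theorem regIneq (hn : 3 ≤ n) (g : Metric n X) (f : Frame g) (ρ : X → ℝ) (hE : IsCCE g ρ) (hY : 0 < YB g) :
    RegIneq n (vol g) (bvol g) (scalX g) (Hm g) (C1 n X) f.D (YB g) := by
  intro lam kap w ζ τ c C hIn hc hw hτ hW
  have hn3 : (3 : ℝ) ≤ n := by exact_mod_cast hn
  have hn1 : (0 : ℝ) < (n : ℝ) - 1 := by linarith
  have hn2 : 2 ≤ n := by omega
  have hS := isSob hn2 g f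
  have hfμ : IsFiniteMeasure (vol g) := ⟨hS.fin_μ⟩
  have hfσ : IsFiniteMeasure (bvol g) := ⟨hS.fin_σ⟩
  have hae : ∀ᵐ x ∂(bvol g), x ∈ (𝓡∂ (n + 1)).boundary X := by
    rw [ae_iff]; exact (bvol_spec g).1
  have hW' : WeakEq n (vol g) (bvol g) (scalX g) (meanX g) (C1 n X) f.D lam kap w ζ τ := by
    intro φ hφ
    rw [← hW φ hφ]
    have : ∫ x, meanX g x * τ x * φ x ∂(bvol g) = ∫ x, Hm g x * τ x * φ x ∂(bvol g) := by
      refine integral_congr_ae ?_
      filter_upwards [Hm_ae g] with x hx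
      rw [hx]
    rw [this]
  obtain ⟨u, K, hu, hcC, h1, h2, h3, h4⟩ := smooth_approx hn g f lam kap w ζ τ c C hIn hc hw hτ hW'
  obtain ⟨K', hK'⟩ := key_ineq hn g ρ hE hY c C hc
  have huc : ∀ k, Continuous (u k) := fun k => (hu k).continuous
  have hupos : ∀ k p, 0 < u k p := fun k p => lt_of_lt_of_le hc (hcC k p).1
  have hrc : ∀ (r : ℝ) (k : ℕ), Continuous fun x => u k x ^ r := fun r k =>
    (huc k).rpow_const fun x => Or.inl (hupos k x).ne'
  set q := qq n with hq
  set p := pp n with hp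
  have hqe : q = 2 * (n : ℝ) / ((n : ℝ) - 1) := rfl
  -- (1)
  obtain ⟨L, hL0, hL⟩ := lip_rpow c C q hc
  have hτ1 : MemLp τ 2 (bvol g) := hIn.memt
  have hud : ∀ k, MemLp (fun x => u k x - τ x) 2 (bvol g) := fun k =>
    (memLp_bvol hn2 g (u k) (huc k).continuousOn 2).sub hτ1
  have hτq : Integrable (fun x => |τ x| ^ q) (bvol g) := by
    obtain ⟨M, hM0, hM⟩ := bd_rpow c C q hc
    refine Integrable.of_bound (C := M) ?_ ?_
    · have h5 : AEStronglyMeasurable τ (bvol g) := hτ1.1
      have h6 : AEMeasurable (fun x => |τ x| ^ q) (bvol g) :=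
        (h5.aemeasurable.abs).pow_const q
      exact h6.aestronglyMeasurable
    · filter_upwards [hτ] with x hx
      have h0 : 0 < τ x := lt_of_lt_of_le hc hx.1
      rw [Real.norm_eq_abs, abs_of_nonneg (by positivity), abs_of_pos h0]
      exact hM _ hx
  have huq : ∀ k, Integrable (fun x => u k x ^ q) (bvol g) := fun k =>
    (memLp_one_iff_integrable).1 (memLp_bvol hn2 g _ (hrc q k).continuousOn 1)
  have hone : MemLp (fun _ : X => (1 : ℝ)) 2 (bvol g) := memLp_const 1
  have hI : Tendsto (fun k => ∫ x, u k x ^ q ∂(bvol g)) atTop (𝓝 (∫ x, |τ x| ^ q ∂(bvol g))) := by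
    rw [tendsto_iff_norm_sub_tendsto_zero]
    have hb : ∀ k, ‖(∫ x, u k x ^ q ∂(bvol g)) - ∫ x, |τ x| ^ q ∂(bvol g)‖ ≤
        L * (Real.sqrt (∫ x, (u k x - τ x) ^ 2 ∂(bvol g)) *
          Real.sqrt (∫ x, (1 : ℝ) ^ 2 ∂(bvol g))) := by
      intro k
      rw [← integral_sub (huq k) hτq]
      calc ‖∫ x, (u k x ^ q - |τ x| ^ q) ∂(bvol g)‖ ≤ ∫ x, ‖u k x ^ q - |τ x| ^ q‖ ∂(bvol g) :=
            norm_integral_le_integral_norm _
        _ ≤ ∫ x, L * (|u k x - τ x| * |(1 : ℝ)|) ∂(bvol g) := by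
            refine integral_mono_ae ((huq k).sub hτq).norm ?_ ?_
            · have h7 := ((hud k).integrable one_le_two).norm.const_mul L
              refine h7.congr (ae_of_all _ fun x => ?_)
              simp [Real.norm_eq_abs]
            · filter_upwards [hτ] with x hx
              have h0 : 0 < τ x := lt_of_lt_of_le hc hx.1
              have := hL (u k x) (hcC k x) (τ x) hx
              rw [Real.norm_eq_abs, abs_of_pos h0]
              simpa using this
        _ = L * ∫ x, |u k x - τ x| * |(1 : ℝ)| ∂(bvol g) := integral_const_mul _ _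
        _ ≤ _ := mul_le_mul_of_nonneg_left (cs_int _ _ (hud k) hone) hL0
    refine squeeze_zero (fun k => norm_nonneg _) hb ?_
    have h8 := (h1.sqrt.mul_const (Real.sqrt (∫ x, (1 : ℝ) ^ 2 ∂(bvol g)))).const_mul L
    simpa using h8
  -- (2)
  set s : ℕ → X → ℝ := fun k x => Bop g (u k) x - kap * u k x ^ (q - 1) with hs
  set S : ℕ → ℝ := fun k => ∫ x, s k x ^ 2 ∂(bvol g) with hSdef
  have hsc : ∀ k, ContinuousOn (s k) ((𝓡∂ (n + 1)).boundary X) := fun k =>
    (Bop_cont g (u k) (hu k)).sub (continuousOn_const.mul (hrc (q - 1) k).continuousOn)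
  have hsL : ∀ k, MemLp (s k) 2 (bvol g) := fun k => memLp_bvol hn2 g _ (hsc k) 2
  have hS0 : Tendsto S atTop (𝓝 0) := h3
  obtain ⟨M1, hM10, hM1⟩ := bd_rpow c C (-2 / ((n : ℝ) - 1)) hc
  obtain ⟨M2, hM20, hM2⟩ := bd_rpow c C (-2 / ((n : ℝ) - 1) + (q - 1)) hc
  have hJ : Tendsto (fun k => ∫ x, u k x ^ (-2 / ((n : ℝ) - 1)) * Bop g (u k) x ^ 2 ∂(bvol g)) atTop
      (𝓝 (kap ^ 2 * ∫ x, |τ x| ^ q ∂(bvol g))) := by
    have hdec : ∀ k, ∫ x, u k x ^ (-2 / ((n : ℝ) - 1)) * Bop g (u k) x ^ 2 ∂(bvol g) =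
        kap ^ 2 * (∫ x, u k x ^ q ∂(bvol g)) +
          ∫ x, (2 * kap * (u k x ^ (-2 / ((n : ℝ) - 1) + (q - 1)) * s k x) +
            u k x ^ (-2 / ((n : ℝ) - 1)) * s k x ^ 2) ∂(bvol g) := by
      intro k
      rw [← integral_const_mul, ← integral_add ((huq k).const_mul _)]
      · refine integral_congr_ae (ae_of_all _ fun x => ?_)
        have h0 := hupos k x
        have e1 : u k x ^ (-2 / ((n : ℝ) - 1) + (q - 1)) =
            u k x ^ (-2 / ((n : ℝ) - 1)) * u k x ^ (q - 1) := Real.rpow_add h0 _ _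
        have e2 : u k x ^ q = u k x ^ (-2 / ((n : ℝ) - 1)) * (u k x ^ (q - 1) * u k x ^ (q - 1)) := by
          rw [← Real.rpow_add h0, ← Real.rpow_add h0]
          congr 1
          rw [hqe]
          field_simp
          ring
        simp only [hs]
        rw [e1, e2]
        ring
      · refine (memLp_one_iff_integrable).1 (memLp_bvol hn2 g _ ?_ 1)
        refine ContinuousOn.add ?_ ?_
        · exact continuousOn_const.mul ((hrc _ k).continuousOn.mul (hsc k))
        · exact (hrc _ k).continuousOn.mul ((hsc k).pow 2)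
    have hrem : Tendsto (fun k => ∫ x, (2 * kap * (u k x ^ (-2 / ((n : ℝ) - 1) + (q - 1)) * s k x) +
            u k x ^ (-2 / ((n : ℝ) - 1)) * s k x ^ 2) ∂(bvol g)) atTop (𝓝 0) := by
      have hb : ∀ k, ‖∫ x, (2 * kap * (u k x ^ (-2 / ((n : ℝ) - 1) + (q - 1)) * s k x) +
            u k x ^ (-2 / ((n : ℝ) - 1)) * s k x ^ 2) ∂(bvol g)‖ ≤
          2 * |kap| * M2 * (Real.sqrt (S k) * Real.sqrt (∫ x, (1 : ℝ) ^ 2 ∂(bvol g))) + M1 * S k := by
        intro k
        have i1 : Integrable (fun x => |s k x| * |(1 : ℝ)|) (bvol g) := by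
          have h7 := ((hsL k).integrable one_le_two).norm
          refine h7.congr (ae_of_all _ fun x => ?_)
          simp [Real.norm_eq_abs]
        have i2 : Integrable (fun x => s k x ^ 2) (bvol g) := (hsL k).integrable_sq
        calc ‖∫ x, (2 * kap * (u k x ^ (-2 / ((n : ℝ) - 1) + (q - 1)) * s k x) +
            u k x ^ (-2 / ((n : ℝ) - 1)) * s k x ^ 2) ∂(bvol g)‖ ≤
            ∫ x, (2 * |kap| * M2 * (|s k x| * |(1 : ℝ)|) + M1 * s k x ^ 2) ∂(bvol g) := by
              refine norm_integral_le_of_norm_le ((i1.const_mul _).add (i2.const_mul _))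
                (ae_of_all _ fun x => ?_)
              have h0 := hupos k x
              have b1 := hM1 (u k x) (hcC k x)
              have b2 := hM2 (u k x) (hcC k x)
              have p1 : 0 < u k x ^ (-2 / ((n : ℝ) - 1)) := Real.rpow_pos_of_pos h0 _
              have p2 : 0 < u k x ^ (-2 / ((n : ℝ) - 1) + (q - 1)) := Real.rpow_pos_of_pos h0 _
              rw [Real.norm_eq_abs]
              refine (abs_add_le _ _).trans (add_le_add ?_ ?_)
              · rw [abs_mul, abs_mul, abs_mul, abs_of_pos p2, abs_two, abs_one, mul_one]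
                calc 2 * |kap| * (u k x ^ (-2 / ((n : ℝ) - 1) + (q - 1)) * |s k x|) ≤
                    2 * |kap| * (M2 * |s k x|) := by gcongr
                  _ = _ := by ring
              · rw [abs_mul, abs_of_pos p1, abs_of_nonneg (sq_nonneg _)]
                gcongr
          _ = 2 * |kap| * M2 * (∫ x, |s k x| * |(1 : ℝ)| ∂(bvol g)) + M1 * S k := by
              rw [integral_add (i1.const_mul _) (i2.const_mul _), integral_const_mul, integral_const_mul]
          _ ≤ _ := by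
              have := cs_int _ _ (hsL k) hone
              gcongr
      rw [tendsto_zero_iff_norm_tendsto_zero]
      refine squeeze_zero (fun k => norm_nonneg _) hb ?_
      have h8 := ((hS0.sqrt.mul_const (Real.sqrt (∫ x, (1 : ℝ) ^ 2 ∂(bvol g)))).const_mul
        (2 * |kap| * M2)).add (hS0.const_mul M1)
      simpa using h8
    have h9 := (hI.const_mul (kap ^ 2)).add hrem
    rw [add_zero] at h9
    refine h9.congr fun k => ?_
    rw [hdec k]
  -- (3)
  set r : ℕ → X → ℝ := fun k x => Lop g (u k) x - lam * u k x ^ (p - 1) with hr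
  set R : ℕ → ℝ := fun k => ∫ x, r k x ^ 2 ∂(vol g) with hR
  have hrcont : ∀ k, Continuous (r k) := fun k =>
    (Lop_cont g (u k) (hu k)).sub (continuous_const.mul (hrc (p - 1) k))
  have hgc : ∀ k, Continuous (gipX g (u k) (u k)) := fun k => gipX_cont g _ _ (hu k) (hu k)
  have hrL : ∀ k, MemLp (r k) 2 (vol g) := fun k => memLp_vol hn2 g _ (hrcont k) 2
  have hgL : ∀ k, MemLp (gipX g (u k) (u k)) 2 (vol g) := fun k => memLp_vol hn2 g _ (hgc k) 2
  have honeμ : MemLp (fun _ : X => (1 : ℝ)) 2 (vol g) := memLp_const 1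
  have hR0 : Tendsto R atTop (𝓝 0) := h2
  obtain ⟨M3, hM30, hM3⟩ := bd_rpow c C (p - 1) hc
  have hT : Tendsto (fun k => ∫ x, |Lop g (u k) x - lam * u k x ^ (p - 1)| *
      (1 + gipX g (u k) (u k) x + |Lop g (u k) x|) ∂(vol g)) atTop (𝓝 0) := by
    have hb : ∀ k, ∫ x, |Lop g (u k) x - lam * u k x ^ (p - 1)| *
        (1 + gipX g (u k) (u k) x + |Lop g (u k) x|) ∂(vol g) ≤
        (1 + |lam| * M3) * (Real.sqrt (R k) * Real.sqrt (∫ x, (1 : ℝ) ^ 2 ∂(vol g))) +
          Real.sqrt (R k) * Real.sqrt K + R k := by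
      intro k
      have i1 : Integrable (fun x => |r k x| * |(1 : ℝ)|) (vol g) := by
        have h7 := ((hrL k).integrable one_le_two).norm
        refine h7.congr (ae_of_all _ fun x => ?_)
        simp [Real.norm_eq_abs]
      have i2 : Integrable (fun x => |r k x| * |gipX g (u k) (u k) x|) (vol g) :=
        (memLp_one_iff_integrable).1 (memLp_vol hn2 g _ ((hrcont k).abs.mul (hgc k).abs) 1)
      have i3 : Integrable (fun x => r k x ^ 2) (vol g) := (hrL k).integrable_sq
      have i0 : Integrable (fun x => |Lop g (u k) x - lam * u k x ^ (p - 1)| *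
          (1 + gipX g (u k) (u k) x + |Lop g (u k) x|)) (vol g) := by
        refine (memLp_one_iff_integrable).1 (memLp_vol hn2 g _ ?_ 1)
        exact (hrcont k).abs.mul ((continuous_const.add (hgc k)).add (Lop_cont g (u k) (hu k)).abs)
      calc ∫ x, |Lop g (u k) x - lam * u k x ^ (p - 1)| *
          (1 + gipX g (u k) (u k) x + |Lop g (u k) x|) ∂(vol g) ≤
          ∫ x, ((1 + |lam| * M3) * (|r k x| * |(1 : ℝ)|) + |r k x| * |gipX g (u k) (u k) x| +
            r k x ^ 2) ∂(vol g) := by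
            refine integral_mono i0 (((i1.const_mul _).add i2).add i3) fun x => ?_
            have h0 := hupos k x
            have b1 := hM3 (u k x) (hcC k x)
            have p1 : 0 < u k x ^ (p - 1) := Real.rpow_pos_of_pos h0 _
            have e1 : |Lop g (u k) x| ≤ |r k x| + |lam| * M3 := by
              have : Lop g (u k) x = r k x + lam * u k x ^ (p - 1) := by simp only [hr]; ring
              rw [this]
              refine (abs_add_le _ _).trans ?_
              rw [abs_mul, abs_of_pos p1]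
              gcongr
            have e2 : gipX g (u k) (u k) x ≤ |gipX g (u k) (u k) x| := le_abs_self _
            have e3 : |r k x| * |r k x| = r k x ^ 2 := by rw [← sq, sq_abs]
            simp only [abs_one, mul_one]
            calc |Lop g (u k) x - lam * u k x ^ (p - 1)| *
                (1 + gipX g (u k) (u k) x + |Lop g (u k) x|) =
                |r k x| * (1 + gipX g (u k) (u k) x + |Lop g (u k) x|) := rfl
              _ ≤ |r k x| * (1 + |gipX g (u k) (u k) x| + (|r k x| + |lam| * M3)) := by gcongr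
              _ = (1 + |lam| * M3) * |r k x| + |r k x| * |gipX g (u k) (u k) x| +
                  |r k x| * |r k x| := by ring
              _ = _ := by rw [e3]
        _ = (1 + |lam| * M3) * (∫ x, |r k x| * |(1 : ℝ)| ∂(vol g)) +
            (∫ x, |r k x| * |gipX g (u k) (u k) x| ∂(vol g)) + R k := by
            have i12 : Integrable (fun x => (1 + |lam| * M3) * (|r k x| * |(1 : ℝ)|) +
                |r k x| * |gipX g (u k) (u k) x|) (vol g) := (i1.const_mul _).add i2
            rw [integral_add i12 i3, integral_add (i1.const_mul _) i2, integral_const_mul]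
        _ ≤ _ := by
            have c1 := cs_int _ _ (hrL k) honeμ
            have c2 := (cs_int _ _ (hrL k) (hgL k)).trans
              (mul_le_mul_of_nonneg_left (Real.sqrt_le_sqrt (h4 k)) (Real.sqrt_nonneg _))
            gcongr
    have hnn : ∀ k, 0 ≤ ∫ x, |Lop g (u k) x - lam * u k x ^ (p - 1)| *
        (1 + gipX g (u k) (u k) x + |Lop g (u k) x|) ∂(vol g) := by
      intro k
      refine integral_nonneg fun x => ?_
      have : 0 ≤ gipX g (u k) (u k) x := by
        rw [← norm_D g f (u k) ((hu k).of_le (by simp)) x]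
        positivity
      positivity
    refine squeeze_zero hnn hb ?_
    have h8 := (((hR0.sqrt.mul_const (Real.sqrt (∫ x, (1 : ℝ) ^ 2 ∂(vol g)))).const_mul
        (1 + |lam| * M3)).add (hR0.sqrt.mul_const (Real.sqrt K))).add hR0
    simpa using h8
  -- conclusion
  have hexp : 0 ≤ ((n : ℝ) - 2) / (n : ℝ) := div_nonneg (by linarith) (by linarith)
  have hlhs := (hI.rpow_const (p := ((n : ℝ) - 2) / (n : ℝ)) (Or.inr hexp)).const_mul (YB g)
  have hrhs := ((hJ.const_mul (((n : ℝ) - 1) / (4 * (n : ℝ)))).add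
    (hI.const_mul (((n : ℝ) - 1) / ((n : ℝ) + 1) * lam))).add (hT.const_mul K')
  have hfin := le_of_tendsto_of_tendsto hlhs hrhs (Eventually.of_forall fun k =>
    hK' (u k) lam (hu k) (hcC k))
  rw [mul_zero, add_zero, ← mul_assoc] at hfin
  exact hfin

end Pool.Agent.CY.S8
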