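import Pool.Agent.CY.S3b.Final
import Pool.Agent.CY.S4.Final
import Pool.Agent.CY.S5.Green
import Pool.Agent.CY.S5.Curv
import Pool.Agent.CY.S5.Mean
import Pool.Agent.CY.S5.KeyFin
import Pool.Agent.CY.S6.Final
import Pool.Agent.CY.S7.Final

/-! The targets used by S8. -/

set_option autoImplicit false

open scoped ContDiff Manifold
open MeasureTheory Set Filter Topology

namespace Pool.Agent.CY

noncomputable section

variable {n : ℕ} {X : Type} [TopologicalSpace X] [ChartedSpace (EuclideanHalfSpace (n + 1)) X]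
  [IsManifold (𝓡∂ (n + 1)) ∞ X] [CompactSpace X] [T2Space X] [ConnectedSpace X]
  [MeasurableSpace X] [BorelSpace X]

theorem two_le_infty : (2 : WithTop ℕ∞) ≤ ∞ := by
  exact WithTop.coe_le_coe.2 (le_top : (2 : ℕ∞) ≤ ⊤)

theorem scalX_cont (g : Metric n X) : Continuous (scalX g) := continuous_scalX g
theorem meanX_cont (g : Metric n X) : ContinuousOn (meanX g) ((𝓡∂ (n + 1)).boundary X) := continuousOn_meanX g
theorem Lop_cont (g : Metric n X) (u : X → ℝ) (hu : ContMDiff (𝓡∂ (n + 1)) 𝓘(ℝ) ∞ u) :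
    Continuous (Lop g u) := continuous_Lop g (hu.of_le two_le_infty)
theorem Bop_cont (g : Metric n X) (u : X → ℝ) (hu : ContMDiff (𝓡∂ (n + 1)) 𝓘(ℝ) ∞ u) :
    ContinuousOn (Bop g u) ((𝓡∂ (n + 1)).boundary X) := continuousOn_Bop g (hu.of_le (by exact_mod_cast le_top))
theorem gipX_cont (g : Metric n X) (u v : X → ℝ) (hu : ContMDiff (𝓡∂ (n + 1)) 𝓘(ℝ) ∞ u)
    (hv : ContMDiff (𝓡∂ (n + 1)) 𝓘(ℝ) ∞ v) : Continuous (gipX g u v) :=
  continuous_gipX g (hu.of_le (by exact_mod_cast le_top)) (hv.of_le (by exact_mod_cast le_top))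

end

end Pool.Agent.CY
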